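import Pool.Agent.Helper64.RFn.GoalsS

/-!
PROJECT RFn: `FFGs` (scaled version of the volume bound) from `FFGn`, `SCA1`, `SCA2`.
-/

open MeasureTheory Set Matrix

namespace Pool.Agent.Helper89.RFn

open Pool.Agent.Helper47.RFn (EE MF pd Hom0 Sm IsMetric cyl Chr Rup Rm ip gvol Tan nn)
open Pool.Agent.Helper64.RFn

/-- sum of squares of the coordinates -/
theorem sum_sq {n : ℕ} (x : EE n) : ∑ i, x i * x i = ‖x‖ ^ 2 := by
  rw [EuclideanSpace.norm_sq_eq]
  refine Finset.sum_congr rfl fun i _ => ?_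
  rw [Real.norm_eq_abs, sq_abs]
  ring

/-- `Sr r x` fixes `x` -/
theorem sr_x {n : ℕ} (r : ℝ) (x : EE n) (hx : ‖x‖ = 1) (i : Fin (n + 1)) :
    ∑ j, Sr r x i j * x j = x i := by
  have h0 : ∑ j, rr x i j * x j = x i := by
    have h1 : ∀ j, rr x i j * x j = x i * (x j * x j) := by
      intro j
      simp only [rr, Matrix.of_apply, hx]
      ring
    simp only [h1]
    rw [← Finset.mul_sum, sum_sq, hx]
    ring
  have h2 : ∀ j, Sr r x i j * x j = rr x i j * x j + r * ((1 : Matrix _ _ ℝ) i j * x j)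
      - r * (rr x i j * x j) := by
    intro j
    simp only [Sr, Matrix.add_apply, Matrix.smul_apply, Matrix.sub_apply, smul_eq_mul]
    ring
  simp only [h2]
  rw [Finset.sum_sub_distrib, Finset.sum_add_distrib, ← Finset.mul_sum, ← Finset.mul_sum, h0]
  have h3 : ∑ j, (1 : Matrix (Fin (n + 1)) (Fin (n + 1)) ℝ) i j * x j = x i := by
    simp [Matrix.one_apply]
  rw [h3]
  ring

theorem pf_eq {n : ℕ} (r : ℝ) (A : MF n) (x : EE n) (hx : ‖x‖ = 1) (a b : Fin (n + 1)) :
    Pf (fun x => A x * Sr r x) x a b = Pf A x a b := by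
  have h : ∀ a, ∑ i, (A x * Sr r x) a i * x i = ∑ i, A x a i * x i := by
    intro a
    simp only [Matrix.mul_apply, Finset.sum_mul]
    rw [Finset.sum_comm]
    refine Finset.sum_congr rfl fun j _ => ?_
    have h2 : ∀ i, A x a j * Sr r x j i * x i = A x a j * (Sr r x j i * x i) := fun i => by ring
    simp only [h2]
    rw [← Finset.mul_sum, sr_x r x hx]
  simp only [Pf, h]

/-- the scaled metric on the unit sphere -/
theorem ip_scl {n : ℕ} (c : ℝ) (G : MF n) (hG : IsMetric G) (u : EE n) (hu : ‖u‖ = 1)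
    (v : Fin (n + 1) → ℝ) :
    ip (scl c G) u v v = (∑ i, v i * u i) ^ 2
      + c * ip G u (fun i => v i - (∑ i, v i * u i) * u i) (fun i => v i - (∑ i, v i * u i) * u i) := by
  obtain ⟨α, hα⟩ : ∃ α, α = ∑ i, v i * u i := ⟨_, rfl⟩
  rw [← hα]
  have hsym : ∀ i j, G u i j = G u j i := by
    intro i j
    have h := (hG.pos u).isHermitian
    have h2 := congrFun (congrFun h i) j
    simpa [Matrix.conjTranspose_apply] using h2.symm
  have e1 : ∑ i, ∑ j, u i * u j * v i * v j = α ^ 2 := by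
    have : ∀ i j, u i * u j * v i * v j = (v i * u i) * (v j * u j) := fun i j => by ring
    simp only [this]
    rw [← Finset.sum_mul_sum, ← hα]
    ring
  have e2 : ip (scl c G) u v v = α ^ 2 + c * (ip G u v v - α ^ 2) := by
    unfold ip
    have : ∀ i j, scl c G u i j * v i * v j = u i * u j * v i * v j
        + c * (G u i j * v i * v j) - c * (u i * u j * v i * v j) := by
      intro i j
      simp only [scl, rr, Matrix.add_apply, Matrix.smul_apply, Matrix.sub_apply, Matrix.of_apply,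
        smul_eq_mul, hu]
      ring
    simp only [this, Finset.sum_sub_distrib, Finset.sum_add_distrib, ← Finset.mul_sum, e1]
    ring
  have e3 : ∀ w : Fin (n + 1) → ℝ, ∑ i, ∑ j, G u i j * w i * u j = ∑ i, w i * u i := by
    intro w
    refine Finset.sum_congr rfl fun i _ => ?_
    have : ∀ j, G u i j * w i * u j = w i * (G u i j * u j) := fun j => by ring
    simp only [this]
    rw [← Finset.mul_sum, hG.rad]
  have e3' : ∀ w : Fin (n + 1) → ℝ, ∑ i, ∑ j, G u i j * u i * w j = ∑ i, w i * u i := by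
    intro w
    rw [← e3 w, Finset.sum_comm]
    refine Finset.sum_congr rfl fun i _ => Finset.sum_congr rfl fun j _ => ?_
    rw [hsym]
    ring
  have e4 : ip G u (fun i => v i - α * u i) (fun i => v i - α * u i) = ip G u v v - α ^ 2 := by
    unfold ip
    have : ∀ i j, G u i j * (v i - α * u i) * (v j - α * u j) = G u i j * v i * v j
        - α * (G u i j * v i * u j) - α * (G u i j * u i * v j)
        + α ^ 2 * (G u i j * u i * u j) := fun i j => by ring
    simp only [this, Finset.sum_sub_distrib, Finset.sum_add_distrib, ← Finset.mul_sum]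
    rw [e3 v, e3' v, e3 u, ← hα, sum_sq, hu]
    ring
  rw [e2, e4]

/-- **FFGs** from `FFGn`, `SCA1`, `SCA2`. -/
theorem ffgs (ffg : FFGn) (s1 : SCA1) (s2 : SCA2) : FFGs := by
  intro n c0 C0 hn hc0 hC0
  obtain ⟨η, hη, H⟩ := ffg n (min c0 1) (max C0 1) hn (lt_min hc0 one_pos)
    (lt_of_lt_of_le one_pos (le_max_right _ _))
  refine ⟨η, hη, fun G A θ s hcof hs hb hnear => ?_⟩
  have hc : 0 < 1 / s := by positivity
  obtain ⟨h1, -, h3⟩ := s1 n (1 / s) G A θ hc hcof
  have h4 := H _ _ _ h1 ?_ ?_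
  · rw [h3] at h4
    have h5 : Real.sqrt s ^ n * Real.sqrt (1 / s) ^ n = 1 := by
      rw [← mul_pow, ← Real.sqrt_mul hs.le, mul_one_div_cancel hs.ne', Real.sqrt_one, one_pow]
    have h6 : 0 ≤ Real.sqrt s ^ n := by positivity
    calc Real.sqrt s ^ n * (((n : ℝ) + 1) * (volume (Metric.ball (0 : EE n) 1)).toReal / 4)
        ≤ Real.sqrt s ^ n * (Real.sqrt (1 / s) ^ n * gvol G) := mul_le_mul_of_nonneg_left h4 h6
      _ = gvol G := by rw [← mul_assoc, h5, one_mul]
  · intro x hx v
    have hr : 0 < ‖x‖ := norm_pos_iff.2 hx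
    obtain ⟨u, hu⟩ : ∃ u : EE n, u = ‖x‖⁻¹ • x := ⟨_, rfl⟩
    have hun : ‖u‖ = 1 := by
      rw [hu, norm_smul, norm_inv, norm_norm, inv_mul_cancel₀ hr.ne']
    have hG' : ∀ i j, scl (1 / s) G x i j = scl (1 / s) G u i j := by
      intro i j
      rw [hu]
      exact ((h1.met.sm i j).hom ‖x‖⁻¹ x (inv_pos.2 hr)).symm
    have hip : ip (scl (1 / s) G) x v v = ip (scl (1 / s) G) u v v := by
      unfold ip
      simp only [hG']
    rw [hip, ip_scl _ G hcof.met u hun v]
    obtain ⟨α, hα⟩ : ∃ α, α = ∑ i, v i * u i := ⟨_, rfl⟩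
    rw [← hα]
    have htan : Tan u (fun i => v i - α * u i) := by
      unfold Tan
      have : ∀ i, (v i - α * u i) * u i = v i * u i - α * (u i * u i) := fun i => by ring
      simp only [this, Finset.sum_sub_distrib, ← Finset.mul_sum]
      rw [sum_sq, hun, ← hα]
      ring
    obtain ⟨b1, b2⟩ := hb u hun _ htan
    have hsq : ∑ i, v i ^ 2 = α ^ 2 + ∑ i, (v i - α * u i) ^ 2 := by
      have : ∀ i, (v i - α * u i) ^ 2 = v i ^ 2 - 2 * α * (v i * u i) + α ^ 2 * (u i * u i) :=
        fun i => by ring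
      simp only [this, Finset.sum_sub_distrib, Finset.sum_add_distrib, ← Finset.mul_sum]
      rw [sum_sq, hun, ← hα]
      ring
    obtain ⟨Q, hQ⟩ : ∃ Q, Q = ip G u (fun i => v i - α * u i) (fun i => v i - α * u i) := ⟨_, rfl⟩
    obtain ⟨W, hW⟩ : ∃ W, W = ∑ i, (v i - α * u i) ^ 2 := ⟨_, rfl⟩
    have hW0 : 0 ≤ W := by
      rw [hW]
      positivity
    rw [← hQ, ← hW] at b1 b2
    rw [← hQ, hsq, ← hW]
    have b1' : c0 * W ≤ 1 / s * Q := by
      rw [one_div_mul_eq_div, le_div_iff₀ hs]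
      linarith
    have b2' : 1 / s * Q ≤ C0 * W := by
      rw [one_div_mul_eq_div, div_le_iff₀ hs]
      linarith
    have m1 : min c0 1 * α ^ 2 ≤ 1 * α ^ 2 :=
      mul_le_mul_of_nonneg_right (min_le_right _ _) (sq_nonneg _)
    have m2 : min c0 1 * W ≤ c0 * W := mul_le_mul_of_nonneg_right (min_le_left _ _) hW0
    have m3 : 1 * α ^ 2 ≤ max C0 1 * α ^ 2 :=
      mul_le_mul_of_nonneg_right (le_max_right _ _) (sq_nonneg _)
    have m4 : C0 * W ≤ max C0 1 * W := mul_le_mul_of_nonneg_right (le_max_left _ _) hW0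
    constructor
    · rw [mul_add]
      linarith
    · rw [mul_add]
      linarith
  · intro x hx a b c d
    have hx0 : x ≠ 0 := by
      intro h
      rw [h, norm_zero] at hx
      exact zero_ne_one hx
    obtain ⟨-, -, h5⟩ := s2 n (1 / s) G A θ hc hcof x hx0
    rw [h5 a b c d, pf_eq _ A x hx, pf_eq _ A x hx, pf_eq _ A x hx, pf_eq _ A x hx, one_div_one_div]
    exact hnear x hx a b c d

end Pool.Agent.Helper89.RFn
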