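import Pool.Agent.Helper47.RFn.Alg

/-! # RFn / SH (MP_c98eff_gt): adding a multiple of the identity -/

namespace Pool.Agent.Helper47.RFn

open Finset

theorem goal_SH (hPK : Goal_PK) (hQB : Goal_QB) : Goal_SH := by
  intro n R y hR
  obtain ⟨q1, q2, -, q4, q5, -, -⟩ := hQB n
  have sym1 : (1 : M2 n).IsSymm := Matrix.isSymm_one
  have e1 : ∀ a b : Fin n, (1 : M2 n) a b = if a = b then 1 else 0 := fun a b => Matrix.one_apply
  have act1 : ∀ S : T4 n, act S 1 = Ric S := by
    intro S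
    ext a b
    simp only [act, Ric, e1]
    refine Finset.sum_congr rfl fun e _ => ?_
    simp
  have es : ∀ a b : Fin n, (1 : M2 n) a b = (1 : M2 n) b a := fun a b => by
    rw [e1, e1]; simp only [eq_comm]
  have hId : IsCurv (Id4 n) := by
    refine ⟨fun a b c d => ?_, fun a b c d => ?_, fun a b c d => ?_, fun a b c d => ?_⟩
    · simp only [Id4, wdg]; ring
    · simp only [Id4, wdg]; ring
    · simp only [Id4, wdg]
      rw [es c a, es d b, es c b, es d a]
      ring
    · simp only [Id4, wdg]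
      rw [es c b, es c a, es b a]
      ring
  have hRicId : Ric (Id4 n) = ((n : ℝ) - 1) • (1 : M2 n) := by
    ext a c
    simp only [Ric, Id4, wdg, Matrix.smul_apply, smul_eq_mul]
    have h1 : ∀ b : Fin n, ((1 : M2 n) a c * (1 : M2 n) b b - (1 : M2 n) a b * (1 : M2 n) b c +
        (1 : M2 n) a c * (1 : M2 n) b b - (1 : M2 n) a b * (1 : M2 n) b c) / 2 =
        (1 : M2 n) a c - (1 : M2 n) a b * (1 : M2 n) b c := by
      intro b
      rw [Matrix.one_apply_eq]; ring
    simp_rw [h1]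
    rw [Finset.sum_sub_distrib, ← Matrix.mul_apply, Matrix.one_mul]
    simp
    ring
  have wsmul : ∀ (c : ℝ) (A B : M2 n), wdg (c • A) B = c • wdg A B := by
    intro c A B
    ext a b d e
    simp only [wdg, Matrix.smul_apply, Pi.smul_apply, smul_eq_mul]
    ring
  have k1 : (2 : ℝ) • QQ R (Id4 n) = (2 : ℝ) • wdg (Ric R) 1 := by
    rw [Id4, hPK n R 1 hR sym1, act1, two_smul]
  have k2 : (2 : ℝ) • QQ (Id4 n) (Id4 n) = (2 * ((n : ℝ) - 1)) • Id4 n := by
    have h := hPK n (Id4 n) 1 hId sym1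
    rw [act1, hRicId, wsmul] at h
    change (2 : ℝ) • QQ (Id4 n) (Id4 n) = ((n : ℝ) - 1) • Id4 n + ((n : ℝ) - 1) • Id4 n at h
    rw [h, ← add_smul]
    congr 1
    ring
  have k3 : Q (y • Id4 n) = (((n : ℝ) - 1) * y ^ 2) • Id4 n := by
    rw [← q1, q4, q5, q4]
    have h : QQ (Id4 n) (Id4 n) = ((n : ℝ) - 1) • Id4 n := by
      have h2 : QQ (Id4 n) (Id4 n) = (1 / 2 : ℝ) • ((2 : ℝ) • QQ (Id4 n) (Id4 n)) := by
        rw [smul_smul]; norm_num
      rw [h2, k2, smul_smul]
      congr 1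
      ring
    rw [h, smul_smul, smul_smul]
    congr 1
    ring
  have k4 : (2 : ℝ) • QQ R (y • Id4 n) = (2 * y) • wdg (Ric R) 1 := by
    rw [q5, q4, q5, smul_comm, k1, smul_smul]
    congr 1
    ring
  rw [q2, k3, k4]
  abel

end Pool.Agent.Helper47.RFn
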